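import Pool.Agent.Lib.MP_19e880_co_G3.Final

/-!
Bounds for `γ₃` of flag homology spheres by `γ₁` and `γ₂`, and its nonnegativity in two ranges.
-/

set_option autoImplicit false

namespace Pool.Agent.Results.MP_19e880_co.GammaThreeBounds

/-- Every flag homology `(d-1)`-sphere over any field, `d ≥ 6`, satisfies
`-(2d-8) γ₂ ≤ 3 γ₃ ≤ (γ₁ + 8) γ₂` and a lower bound for `γ₃` by `γ₁, γ₂` (sharp for joins of
polygons of equal length). Hence `γ₃ ≥ 0` if `γ₂ ≤ 1` or `4 γ₂ ≥ γ₁² + 2 (d-4) γ₁`, and then the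
whole gamma vector is nonnegative if `d ≤ 7`. If `γ₂ = 0`, all later entries vanish; if `γ₂ = 1`
and `γ₃ = 0`, all later entries vanish. -/
theorem result :
  ∀ (k : Type) [Field k] (n d : ℕ) (S : Finset (Finset (Fin n)))
    (r : Finset (Finset (Fin n)) → ℕ → ℕ),
    (∀ F ∈ S, ∀ G : Finset (Fin n), G ⊆ F → G ∈ S) →
    (∀ F : Finset (Fin n), (∀ a ∈ F, ∀ b ∈ F, ({a, b} : Finset (Fin n)) ∈ S) → F ∈ S) →
    (∀ (L : Finset (Finset (Fin n))) (j : ℕ),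
      r L j = Matrix.rank (Matrix.of
        (fun (A : {A : Finset (Fin n) // A ∈ L.filter (fun A => A.card = j - 1)})
             (B : {B : Finset (Fin n) // B ∈ L.filter (fun B => B.card = j)}) =>
          ∑ v ∈ B.1, if B.1.erase v = A.1
            then (-1 : k) ^ (B.1.filter (fun w => w < v)).card else 0))) →
    (∀ F ∈ S, ∀ j : ℕ,
      ((((S.filter (fun G => Disjoint G F ∧ G ∪ F ∈ S)).filter
            (fun G => G.card = j)).card : ℤ)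
        - (r (S.filter (fun G => Disjoint G F ∧ G ∪ F ∈ S)) j : ℤ)
        - (r (S.filter (fun G => Disjoint G F ∧ G ∪ F ∈ S)) (j + 1) : ℤ))
        = if j + F.card = d then 1 else 0) →
    ∀ γ : ℕ → ℤ,
      (∑ j ∈ Finset.range (d + 1),
          Polynomial.C (((S.filter (fun G => G.card = j)).card : ℕ) : ℤ)
            * Polynomial.X ^ j * (1 - Polynomial.X) ^ (d - j)
        = ∑ i ∈ Finset.range (d / 2 + 1),
          Polynomial.C (γ i) * Polynomial.X ^ i * (1 + Polynomial.X) ^ (d - 2 * i)) →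
      6 ≤ d →
      (-((2 * (d : ℤ) - 8) * γ 2) ≤ 3 * γ 3 ∧ 3 * γ 3 ≤ (γ 1 + 8) * γ 2) ∧
      γ 2 * (4 * γ 2 - γ 1 ^ 2) + 2 * γ 2 * ((3 * d - 4) * γ 1 + 8 * d)
        - 2 * (d - 2) * γ 1 ^ 2 * (γ 1 + 4) ≤ 3 * (γ 1 + 2 * d) * γ 3 ∧
      ((γ 2 ≤ 1 ∨ γ 1 ^ 2 + 2 * (d - 4) * γ 1 ≤ 4 * γ 2) →
        0 ≤ γ 3 ∧ (d ≤ 7 → ∀ i : ℕ, i ≤ d / 2 → 0 ≤ γ i)) ∧
      (γ 2 = 0 → ∀ i : ℕ, 2 ≤ i → i ≤ d / 2 → γ i = 0) ∧
      (γ 2 = 1 → γ 3 = 0 → ∀ i : ℕ, 3 ≤ i → i ≤ d / 2 → γ i = 0) := by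
  intro k _ n d S r hS hfl hr hrk γ hγ hd
  have hrc : Pool.Agent.MP19e880.RankCond k S d := by
    intro F hF j
    have h := hrk F hF j
    rw [hr, hr] at h
    exact h
  have h := Pool.Agent.MP19e880.HS_of_rank S d hS hfl hrc
  have hE := Pool.Agent.MP19e880.Eul_of_rank S d hS hfl hrc
  have h0 : (∅ : Finset (Fin n)) ∈ S := hfl ∅ (by simp)
  have hL := Pool.Agent.MP19e880.G2.lemmaL (Pool.Agent.MP19e880.fam h hE)
  exact Pool.Agent.MP19e880.G3.gamma_three h hE hL h0 hd γ hγ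

end Pool.Agent.Results.MP_19e880_co.GammaThreeBounds
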