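import Pool.Agent.Lib.MP_19e880_co.Derive
import Pool.Agent.Lib.MP_19e880_co.Join

/-!
Nonnegativity of the gamma vector for flag homology spheres whose links have good vertices.
-/

set_option autoImplicit false

namespace Pool.Agent.Results.MP_19e880_co.GoodVertices

/-- `x` is a vertex of the link of `σ`. -/
def IsVert {n : ℕ} (S : Finset (Finset (Fin n))) (σ : Finset (Fin n)) (x : Fin n) : Prop :=
  x ∉ σ ∧ insert x σ ∈ S

/-- `ρ` is a face of the link of `σ`, and no vertex of `ρ` is equal or adjacent to `v`. -/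
def Apart {n : ℕ} (S : Finset (Finset (Fin n))) (σ : Finset (Fin n)) (v : Fin n)
    (ρ : Finset (Fin n)) : Prop :=
  Disjoint ρ σ ∧ ρ ∪ σ ∈ S ∧ ∀ x ∈ ρ, ({x, v} : Finset (Fin n)) ∉ S

/-- For a flag homology `(d-1)`-sphere `S`: the link of `σ` is the join of the link of its
face `τ` with another sphere, both of dimension at least zero. -/
def JoinFactor {n : ℕ} (S : Finset (Finset (Fin n))) (d : ℕ) (σ τ : Finset (Fin n)) : Prop :=
  σ ⊂ τ ∧ τ ∈ S ∧ τ.card < d ∧
    ∀ x y : Fin n, IsVert S σ x → ¬ IsVert S τ x → IsVert S τ y → ({x, y} : Finset (Fin n)) ∈ S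

/-- `v` is a good vertex of the link of `σ`. -/
inductive Good {n : ℕ} (S : Finset (Finset (Fin n))) (d : ℕ) : Finset (Fin n) → Fin n → Prop
  | low (σ : Finset (Fin n)) (v : Fin n) (h : d ≤ σ.card + 4) : Good S d σ v
  | step (σ : Finset (Fin n)) (v : Fin n) (h4 : ∀ ρ, Apart S σ v ρ → ρ.card ≠ 4)
      (h3 : ∀ ρ, Apart S σ v ρ → ρ.card = 3 → ∀ x ∈ ρ, Good S d (ρ.erase x ∪ σ) x) : Good S d σ v
  | join (σ τ : Finset (Fin n)) (v : Fin n) (hj : JoinFactor S d σ τ) (hv : IsVert S τ v)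
      (hg : Good S d τ v) : Good S d σ v

theorem good_to {n : ℕ} {S : Finset (Finset (Fin n))} {d : ℕ}
    (hE : Pool.Agent.MP19e880.Eul S d) (σ : Finset (Fin n)) (v : Fin n) (hg : Good S d σ v) :
    insert v σ ∈ S → Pool.Agent.MP19e880.Gj S d σ v := by
  induction hg with
  | low σ v h => exact fun _ => Pool.Agent.MP19e880.Gj.low σ v h
  | step σ v h4 h3 ih =>
    intro hv2
    have key : ∀ ρ ∈ Pool.Agent.MP19e880.Kf S σ v, Apart S σ v ρ := by
      intro ρ hρ
      rw [Pool.Agent.MP19e880.mem_Kf_iff hE σ v hv2] at hρ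
      refine ⟨hρ.1, hρ.2.1, ?_⟩
      intro x hx hxv
      refine Finset.disjoint_left.mp hρ.2.2 hx ?_
      unfold Pool.Agent.MP19e880.Nb
      rw [Finset.mem_filter]
      exact ⟨Finset.mem_univ _, hxv⟩
    refine Pool.Agent.MP19e880.Gj.step σ v (fun ρ hρ => h4 ρ (key ρ hρ)) ?_
    intro t ht hc x hx
    refine ih t (key t ht) hc x hx ?_
    rw [← Finset.insert_union, Finset.insert_erase hx]
    exact (key t ht).2.1
  | join σ τ v hj hv hg ih =>
    intro hv2
    obtain ⟨h1, h2, h3, h4⟩ := hj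
    refine Pool.Agent.MP19e880.Gj.join σ τ v ⟨h1, h2, h3, ?_⟩ hv.1 hv.2 (ih hv.2)
    intro x y hx hx2 hx3 hy hy2
    refine h4 x y ⟨hx, hx2⟩ ?_ ⟨hy, hy2⟩
    rintro ⟨hx4, hx5⟩
    rcases hx3 with hx3 | hx3
    · exact hx3 hx5
    · exact hx4 hx3

theorem fn_link {n : ℕ} (S : Finset (Finset (Fin n)))
    (hS : ∀ F ∈ S, ∀ G : Finset (Fin n), G ⊆ F → G ∈ S) (σ : Finset (Fin n)) (j : ℕ) :
    ((S.filter (fun G => Disjoint G σ ∧ G ∪ σ ∈ S)).filter (fun G => G.card = j)).card =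
      Pool.Agent.MP19e880.fn S σ j := by
  unfold Pool.Agent.MP19e880.fn
  refine Finset.card_bij' (fun G _ => G ∪ σ) (fun F _ => F \ σ) ?_ ?_ ?_ ?_
  · intro G hG
    rw [Finset.mem_filter, Finset.mem_filter] at hG
    rw [Finset.mem_filter]
    refine ⟨hG.1.2.2, Finset.subset_union_right, ?_⟩
    rw [Finset.card_union_of_disjoint hG.1.2.1, hG.2, add_comm]
  · intro F hF
    rw [Finset.mem_filter] at hF
    rw [Finset.mem_filter, Finset.mem_filter]
    refine ⟨⟨hS _ hF.1 _ Finset.sdiff_subset, Finset.sdiff_disjoint, ?_⟩, ?_⟩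
    · rw [Finset.sdiff_union_of_subset hF.2.1]
      exact hF.1
    · rw [Finset.card_sdiff_of_subset hF.2.1]
      omega
  · intro G hG
    rw [Finset.mem_filter, Finset.mem_filter] at hG
    rw [Finset.union_sdiff_right]
    exact Finset.sdiff_eq_self_of_disjoint hG.1.2.1
  · intro F hF
    rw [Finset.mem_filter] at hF
    exact Finset.sdiff_union_of_subset hF.2.1

/-- Let `S` be a flag homology `(d-1)`-sphere over a field. Suppose that the link of every face
with `d-4` vertices has a vertex `v` such that no four pairwise adjacent vertices of this link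
are non-adjacent to `v` (or satisfies the inequality of Davis and Okun), and that the link of
every face with at most `d-6` vertices is a join or has a good vertex. Then the gamma vector
of `S` is nonnegative. -/
theorem result :
  ∀ (k : Type) [Field k] (n d : ℕ) (S : Finset (Finset (Fin n)))
    (r : Finset (Finset (Fin n)) → ℕ → ℕ),
    (∀ F ∈ S, ∀ G : Finset (Fin n), G ⊆ F → G ∈ S) →
    (∀ F : Finset (Fin n), (∀ a ∈ F, ∀ b ∈ F, ({a, b} : Finset (Fin n)) ∈ S) → F ∈ S) →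
    (∀ (L : Finset (Finset (Fin n))) (j : ℕ),
      r L j = Matrix.rank (Matrix.of
        (fun (A : {A : Finset (Fin n) // A ∈ L.filter (fun A => A.card = j - 1)})
             (B : {B : Finset (Fin n) // B ∈ L.filter (fun B => B.card = j)}) =>
          ∑ v ∈ B.1, if B.1.erase v = A.1
            then (-1 : k) ^ (B.1.filter (fun w => w < v)).card else 0))) →
    (∀ F ∈ S, ∀ j : ℕ,
      ((((S.filter (fun G => Disjoint G F ∧ G ∪ F ∈ S)).filter
            (fun G => G.card = j)).card : ℤ)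
        - (r (S.filter (fun G => Disjoint G F ∧ G ∪ F ∈ S)) j : ℤ)
        - (r (S.filter (fun G => Disjoint G F ∧ G ∪ F ∈ S)) (j + 1) : ℤ))
        = if j + F.card = d then 1 else 0) →
    (∀ σ ∈ S, σ.card + 4 = d →
      (∃ v, IsVert S σ v ∧ ∀ ρ, Apart S σ v ρ → ρ.card ≠ 4) ∨
      5 * ((S.filter (fun G => Disjoint G σ ∧ G ∪ σ ∈ S)).filter (fun G => G.card = 1)).card ≤
        ((S.filter (fun G => Disjoint G σ ∧ G ∪ σ ∈ S)).filter (fun G => G.card = 2)).card + 16) →
    (∀ σ ∈ S, σ.card + 6 ≤ d →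
      (∃ τ, JoinFactor S d σ τ) ∨ ∃ v, IsVert S σ v ∧ Good S d σ v) →
    ∀ γ : ℕ → ℤ,
      (∑ j ∈ Finset.range (d + 1),
          Polynomial.C (((S.filter (fun G => G.card = j)).card : ℕ) : ℤ)
            * Polynomial.X ^ j * (1 - Polynomial.X) ^ (d - j)
        = ∑ i ∈ Finset.range (d / 2 + 1),
          Polynomial.C (γ i) * Polynomial.X ^ i * (1 + Polynomial.X) ^ (d - 2 * i)) →
      ∀ i : ℕ, i ≤ d / 2 → 0 ≤ γ i := by
  intro k _ n d S r hS hfl hr hrk h4 h6 γ hγ
  have hrc : Pool.Agent.MP19e880.RankCond k S d := by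
    intro F hF j
    have h := hrk F hF j
    rw [hr, hr] at h
    exact h
  have h := Pool.Agent.MP19e880.HS_of_rank S d hS hfl hrc
  have hE := Pool.Agent.MP19e880.Eul_of_rank S d hS hfl hrc
  have h0 : (∅ : Finset (Fin n)) ∈ S := hfl ∅ (by simp)
  have hnum : ∀ σ ∈ S, σ.card + 4 = d →
      5 * Pool.Agent.MP19e880.fn S σ 1 ≤ Pool.Agent.MP19e880.fn S σ 2 + 16 := by
    intro σ hσ hd
    rcases h4 σ hσ hd with ⟨v, ⟨hv, hv2⟩, hv3⟩ | hnum
    · refine Pool.Agent.MP19e880.num_of_four h hE σ hσ hd v hv hv2 ?_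
      intro ρ hρ
      apply hv3
      rw [Pool.Agent.MP19e880.mem_Kf_iff hE σ v hv2] at hρ
      refine ⟨hρ.1, hρ.2.1, ?_⟩
      intro x hx hxv
      refine Finset.disjoint_left.mp hρ.2.2 hx ?_
      unfold Pool.Agent.MP19e880.Nb
      rw [Finset.mem_filter]
      exact ⟨Finset.mem_univ _, hxv⟩
    · rw [fn_link S hS, fn_link S hS] at hnum
      exact hnum
  have hall := Pool.Agent.MP19e880.QQ_all h hE hnum (by
    intro σ hσ hd
    rcases h6 σ hσ hd with ⟨τ, hτ⟩ | ⟨v, ⟨hv, hv2⟩, hg⟩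
    · left
      obtain ⟨h1, h2, h3, h4⟩ := hτ
      refine ⟨τ, h1, h2, h3, ?_⟩
      intro x y hx hx2 hx3 hy hy2
      refine h4 x y ⟨hx, hx2⟩ ?_ ⟨hy, hy2⟩
      rintro ⟨hx4, hx5⟩
      rcases hx3 with hx3 | hx3
      · exact hx3 hx5
      · exact hx4 hx3
    · right
      exact ⟨v, hv, hv2, good_to hE σ v hg hv2⟩) d
  have hcone := hall.1 ∅ h0 (by simp)
  rw [← Pool.Agent.MP19e880.h_poly_eq hE h0] at hcone
  exact Pool.Agent.MP19e880.Cone.gamma_nonneg hcone γ hγ

end Pool.Agent.Results.MP_19e880_co.GoodVertices
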